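import Pool.Agent.Helper5.FRD.Goals

/-! Packet FRD-PMH (MP_79b960_co): `t'` links two pairs of odd circuits. -/

set_option autoImplicit false

namespace Pool.Agent.Helper23.FRD.PMH

open Finset
open Pool.Agent.Helper5.FRC Pool.Agent.Helper5.FRD

theorem t (hF : PmfStmt) (hC : ChainStmt) : Pool.Agent.Helper5.FRD.PmhStmt := by
  intro V _ _ n A t C Z h5 p t' hp hR x hx hx' y hy hy'
  obtain ⟨hn, hPrg, hBl, hCir, hOdd, hdis, hCZ, hEv, hCZd, hA⟩ := id h5
  obtain ⟨hR1, hR2, hR3⟩ := id hR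
  obtain ⟨hp1, hp2⟩ := id hp
  have hZA : Z ⊆ A := by
    rw [hA]
    exact subset_union_right
  have hCA : ∀ i, ∀ v ∈ C i, v ∈ A \ Z := by
    intro i v hv
    rw [mem_sdiff, hA]
    exact ⟨mem_union_left _ (mem_biUnion.2 ⟨i, mem_univ _, hv⟩), fun hz =>
      disjoint_left.1 (hCZd i) hv hz⟩
  have hxx : t' (t' x) = x := (hR1 x (hCA 0 x hx)).2.1
  have hyy : t' (t' y) = y := (hR1 y (hCA 2 y hy)).2.1
  let e : Fin 4 → V := ![x, t' x, y, t' y]
  have he : ∀ i, e i ∈ C i := by
    intro i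
    fin_cases i
    · exact hx
    · exact hx'
    · exact hy
    · exact hy'
  have hs : ∀ i, ∃ j, j ≠ i ∧ t' (e i) = e j := by
    intro i
    fin_cases i
    · exact ⟨1, by decide, rfl⟩
    · exact ⟨0, by decide, hxx⟩
    · exact ⟨3, by decide, rfl⟩
    · exact ⟨2, by decide, hyy⟩
  set K : Finset V := univ.image e with hK
  have hKsub : K ⊆ A \ Z := by
    intro v hv
    obtain ⟨i, -, rfl⟩ := mem_image.1 hv
    exact hCA i _ (he i)
  have hdm : dm t' K = 0 := by
    unfold dm
    rw [card_eq_zero, filter_eq_empty_iff]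
    intro v hv hv'
    obtain ⟨i, -, rfl⟩ := mem_image.1 hv
    obtain ⟨j, -, hj⟩ := hs i
    rw [hj] at hv'
    exact hv' (mem_image_of_mem _ (mem_univ _))
  obtain ⟨W, hWZ, hWp, hWd⟩ := hR2 K hKsub
  rw [hdm] at hWd
  have hYt : ∀ v ∈ K ∪ W, t v ∈ K ∪ W := by
    unfold dm at hWd
    rw [card_eq_zero, filter_eq_empty_iff] at hWd
    intro v hv
    by_contra h
    exact hWd hv h
  apply hF V n A t C Z h5 p (K ∪ W)
  · exact union_subset (hKsub.trans sdiff_subset) (hWZ.trans hZA)
  · refine ⟨?_, ?_, ?_, ?_⟩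
    · intro v hv
      obtain ⟨h1, h2, h3⟩ := hp1 v hv
      exact ⟨h1, h2, Or.inr (hp2 v hv)⟩
    · intro v hv h
      exact absurd h (hp1 v hv).2.2
    · unfold fx
      rw [card_eq_zero.2]
      · omega
      · rw [filter_eq_empty_iff]
        intro v hv
        exact (hp1 v hv).2.2
    · intro v hv
      refine ⟨hYt v hv, fun hz => ?_⟩
      rcases mem_union.1 hv with h | h
      · exact absurd hz (mem_sdiff.1 (hKsub h)).2
      · exact mem_union_right _ (hWp v h)
  · intro i
    refine ⟨e i, ?_, ?_⟩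
    · ext v
      rw [mem_inter, mem_singleton, mem_union]
      constructor
      · rintro ⟨h | h, hv⟩
        · obtain ⟨j, -, rfl⟩ := mem_image.1 h
          by_cases hij : j = i
          · rw [hij]
          · exact absurd hv (disjoint_left.1 (hdis j i hij) (he j))
        · exact absurd (hWZ h) (disjoint_left.1 (hCZd i) hv)
      · rintro rfl
        exact ⟨Or.inl (mem_image_of_mem _ (mem_univ _)), he i⟩
    · intro h
      obtain ⟨j, hji, hj⟩ := hs i
      have h1 := (hC V A Z t p t' hPrg hZA hp1 hR (e i) (hCA i _ (he i))).2.1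
        (disjoint_left.1 (hCZd i) h)
      rw [← h1, hj] at h
      exact disjoint_left.1 (hdis j i hji) (he j) h

end Pool.Agent.Helper23.FRD.PMH
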